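import Mathlib

set_option autoImplicit false

/-!
For a prime `p` and `j`, the Lie ring `Lj p j`: the cross product algebra over the ideal
`(X)` of `(ZMod p)[X]`, written as triples of polynomials (a triple `a` stands for `X * a`),
extended by the centre `ZMod p` with the cocycle `(a, b) ↦ coeff (a · b')` at `4 p ^ (j+1) - 1`.
-/

namespace Run7.h11

open Polynomial

/-- the coefficient functional -/
def lam (p j : ℕ) (f : (ZMod p)[X]) : ZMod p := f.coeff (4 * p ^ (j + 1) - 1)

lemma lam_add (p j : ℕ) (f g : (ZMod p)[X]) : lam p j (f + g) = lam p j f + lam p j g := by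
  simp [lam]

lemma lam_sub (p j : ℕ) (f g : (ZMod p)[X]) : lam p j (f - g) = lam p j f - lam p j g := by
  simp [lam]

lemma lam_zero (p j : ℕ) : lam p j 0 = 0 := by
  simp [lam]

lemma lam_two (p j : ℕ) (f : (ZMod p)[X]) : lam p j (2 * f) = 2 * lam p j f := by
  rw [two_mul, lam_add, two_mul]

lemma lam_derivative (p j : ℕ) (hp : p ≠ 0) (f : (ZMod p)[X]) :
    lam p j (derivative f) = 0 := by
  have h : 4 * p ^ (j + 1) - 1 + 1 = 4 * p ^ (j + 1) := by
    have : 0 < p ^ (j + 1) := Nat.pow_pos (Nat.pos_of_ne_zero hp)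
    omega
  have h2 : ((4 * p ^ (j + 1) - 1 : ℕ) : ZMod p) + 1 = 0 := by
    have : (((4 * p ^ (j + 1) - 1 + 1 : ℕ)) : ZMod p) = 0 := by
      rw [h]
      push_cast
      rw [pow_succ]
      simp
    push_cast at this
    exact this
  rw [lam, coeff_derivative, h2, mul_zero]

/-- underlying type of the model -/
def Lj (p _j : ℕ) : Type := ((ZMod p)[X] × (ZMod p)[X] × (ZMod p)[X]) × ZMod p

variable (p j : ℕ)

noncomputable instance : AddCommGroup (Lj p j) :=
  inferInstanceAs (AddCommGroup (((ZMod p)[X] × (ZMod p)[X] × (ZMod p)[X]) × ZMod p))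

/-- scaled cross product -/
noncomputable def crossS (a b : (ZMod p)[X] × (ZMod p)[X] × (ZMod p)[X]) :
    (ZMod p)[X] × (ZMod p)[X] × (ZMod p)[X] :=
  (X * (a.2.1 * b.2.2 - a.2.2 * b.2.1), X * (a.2.2 * b.1 - a.1 * b.2.2),
    X * (a.1 * b.2.1 - a.2.1 * b.1))

/-- the cocycle before applying the functional -/
noncomputable def omP (a b : (ZMod p)[X] × (ZMod p)[X] × (ZMod p)[X]) : (ZMod p)[X] :=
  X * a.1 * derivative (X * b.1) + X * a.2.1 * derivative (X * b.2.1)
    + X * a.2.2 * derivative (X * b.2.2)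

noncomputable instance : Bracket (Lj p j) (Lj p j) :=
  ⟨fun a b => (crossS p a.1 b.1, lam p j (omP p a.1 b.1))⟩

lemma bracket_fst (a b : Lj p j) : (⁅a, b⁆ : Lj p j).1 = crossS p a.1 b.1 := rfl
lemma bracket_snd (a b : Lj p j) : (⁅a, b⁆ : Lj p j).2 = lam p j (omP p a.1 b.1) := rfl
lemma add_fst' (a b : Lj p j) : (a + b).1 = a.1 + b.1 := rfl
lemma add_snd' (a b : Lj p j) : (a + b).2 = a.2 + b.2 := rfl
lemma zero_fst' : (0 : Lj p j).1 = 0 := rfl
lemma zero_snd' : (0 : Lj p j).2 = 0 := rfl

lemma crossS_add_left (a b c : (ZMod p)[X] × (ZMod p)[X] × (ZMod p)[X]) :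
    crossS p (a + b) c = crossS p a c + crossS p b c := by
  simp only [crossS, Prod.fst_add, Prod.snd_add, Prod.mk_add_mk, Prod.mk.injEq]
  refine ⟨by ring, by ring, by ring⟩

lemma crossS_add_right (a b c : (ZMod p)[X] × (ZMod p)[X] × (ZMod p)[X]) :
    crossS p a (b + c) = crossS p a b + crossS p a c := by
  simp only [crossS, Prod.fst_add, Prod.snd_add, Prod.mk_add_mk, Prod.mk.injEq]
  refine ⟨by ring, by ring, by ring⟩

lemma crossS_self (a : (ZMod p)[X] × (ZMod p)[X] × (ZMod p)[X]) : crossS p a a = 0 := by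
  simp only [crossS]
  refine Prod.ext ?_ (Prod.ext ?_ ?_) <;> simp <;> ring

lemma crossS_jacobi (a b c : (ZMod p)[X] × (ZMod p)[X] × (ZMod p)[X]) :
    crossS p a (crossS p b c) = crossS p (crossS p a b) c + crossS p b (crossS p a c) := by
  simp only [crossS, Prod.mk_add_mk, Prod.mk.injEq]
  refine ⟨by ring, by ring, by ring⟩

lemma omP_add_left (a b c : (ZMod p)[X] × (ZMod p)[X] × (ZMod p)[X]) :
    omP p (a + b) c = omP p a c + omP p b c := by
  simp only [omP, Prod.fst_add, Prod.snd_add]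
  ring

lemma omP_add_right (a b c : (ZMod p)[X] × (ZMod p)[X] × (ZMod p)[X]) :
    omP p a (b + c) = omP p a b + omP p a c := by
  simp only [omP, Prod.fst_add, Prod.snd_add, mul_add, derivative_add]
  ring

lemma omP_self (a : (ZMod p)[X] × (ZMod p)[X] × (ZMod p)[X]) :
    2 * omP p a a = derivative ((X * a.1) ^ 2 + (X * a.2.1) ^ 2 + (X * a.2.2) ^ 2) := by
  simp only [omP, derivative_add, derivative_pow]
  push_cast
  simp only [map_ofNat]
  ring

lemma omP_jacobi (a b c : (ZMod p)[X] × (ZMod p)[X] × (ZMod p)[X]) :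
    omP p a (crossS p b c) - omP p (crossS p a b) c - omP p b (crossS p a c)
      = derivative ((X * a.1) * ((X * b.2.1) * (X * c.2.2) - (X * b.2.2) * (X * c.2.1))
        + (X * a.2.1) * ((X * b.2.2) * (X * c.1) - (X * b.1) * (X * c.2.2))
        + (X * a.2.2) * ((X * b.1) * (X * c.2.1) - (X * b.2.1) * (X * c.1))) := by
  simp only [omP, crossS, derivative_add, derivative_sub, derivative_mul, derivative_X]
  ring

lemma two_ne (hp : p.Prime) (h2 : p ≠ 2) : (2 : ZMod p) ≠ 0 := by
  haveI := Fact.mk hp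
  intro h
  have : ((2 : ℕ) : ZMod p) = 0 := by exact_mod_cast h
  rw [ZMod.natCast_eq_zero_iff] at this
  exact h2 ((Nat.prime_dvd_prime_iff_eq hp Nat.prime_two).1 this)

/-- a prime different from two -/
class OddPrime (p : ℕ) : Prop where
  prime : p.Prime
  ne_two : p ≠ 2

lemma two_cancel [hp : OddPrime p] {x : ZMod p} (h : 2 * x = 0) : x = 0 := by
  haveI := Fact.mk hp.prime
  rcases mul_eq_zero.1 h with h | h
  · exact absurd h (two_ne p hp.prime hp.ne_two)
  · exact h

noncomputable instance instLieRingLj [hp : OddPrime p] : LieRing (Lj p j) where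
  add_lie a b c := Prod.ext (crossS_add_left p _ _ _) (by
    rw [add_snd', bracket_snd, bracket_snd, bracket_snd, add_fst', omP_add_left, lam_add])
  lie_add a b c := Prod.ext (crossS_add_right p _ _ _) (by
    rw [add_snd', bracket_snd, bracket_snd, bracket_snd, add_fst', omP_add_right, lam_add])
  lie_self a := Prod.ext (crossS_self p _) (by
    rw [bracket_snd, zero_snd']
    apply two_cancel p
    rw [← lam_two, omP_self, lam_derivative p j hp.prime.ne_zero])
  leibniz_lie a b c := Prod.ext (crossS_jacobi p _ _ _) (by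
    rw [add_snd', bracket_snd, bracket_snd, bracket_snd, bracket_fst, bracket_fst, bracket_fst]
    have h := lam_derivative p j hp.prime.ne_zero
      ((X * a.1.1) * ((X * b.1.2.1) * (X * c.1.2.2) - (X * b.1.2.2) * (X * c.1.2.1))
        + (X * a.1.2.1) * ((X * b.1.2.2) * (X * c.1.1) - (X * b.1.1) * (X * c.1.2.2))
        + (X * a.1.2.2) * ((X * b.1.1) * (X * c.1.2.1) - (X * b.1.2.1) * (X * c.1.1)))
    rw [← omP_jacobi, lam_sub, lam_sub] at h
    have h' : lam p j (omP p a.1 (crossS p b.1 c.1))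
      = lam p j (omP p (crossS p a.1 b.1) c.1) + lam p j (omP p b.1 (crossS p a.1 c.1)) := by
      linear_combination h
    exact h')

end Run7.h11
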