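import Pool.Agent.Run7.h11.Loop
import Pool.Agent.Run7.h11.Model

set_option autoImplicit false

/-!
The central extension `Af p` of the cross product algebra over `RR p` with the cocycle
`phi (a · D b)`, and the words used in the identities.
-/

namespace Run7.h11

open MvPolynomial

variable (p : ℕ)

/-- triples -/
abbrev V3 (p : ℕ) : Type := RR p × RR p × RR p

/-- underlying type of the model -/
def Af (p : ℕ) : Type := V3 p × ZMod p

noncomputable instance : AddCommGroup (Af p) := inferInstanceAs (AddCommGroup (V3 p × ZMod p))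

/-- cross product -/
noncomputable def cr (a b : V3 p) : V3 p :=
  (a.2.1 * b.2.2 - a.2.2 * b.2.1, a.2.2 * b.1 - a.1 * b.2.2, a.1 * b.2.1 - a.2.1 * b.1)

/-- dot product -/
noncomputable def dt (a b : V3 p) : RR p := a.1 * b.1 + a.2.1 * b.2.1 + a.2.2 * b.2.2

/-- scalar multiple -/
noncomputable def sc (f : RR p) (a : V3 p) : V3 p := (f * a.1, f * a.2.1, f * a.2.2)

/-- the cocycle before applying the functional -/
noncomputable def oP (a b : V3 p) : RR p :=
  a.1 * DD p b.1 + a.2.1 * DD p b.2.1 + a.2.2 * DD p b.2.2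

noncomputable instance : Bracket (Af p) (Af p) :=
  ⟨fun a b => (cr p a.1 b.1, phi p (oP p a.1 b.1))⟩

lemma af_fst (a b : Af p) : (⁅a, b⁆ : Af p).1 = cr p a.1 b.1 := rfl
lemma af_snd (a b : Af p) : (⁅a, b⁆ : Af p).2 = phi p (oP p a.1 b.1) := rfl
lemma af_add_fst (a b : Af p) : (a + b).1 = a.1 + b.1 := rfl
lemma af_add_snd (a b : Af p) : (a + b).2 = a.2 + b.2 := rfl
lemma af_zero_fst : (0 : Af p).1 = 0 := rfl
lemma af_zero_snd : (0 : Af p).2 = 0 := rfl

lemma cr_add_left (a b c : V3 p) : cr p (a + b) c = cr p a c + cr p b c := by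
  simp only [cr, Prod.fst_add, Prod.snd_add, Prod.mk_add_mk, Prod.mk.injEq]
  refine ⟨by ring, by ring, by ring⟩

lemma cr_add_right (a b c : V3 p) : cr p a (b + c) = cr p a b + cr p a c := by
  simp only [cr, Prod.fst_add, Prod.snd_add, Prod.mk_add_mk, Prod.mk.injEq]
  refine ⟨by ring, by ring, by ring⟩

lemma cr_self (a : V3 p) : cr p a a = 0 := by
  simp only [cr]
  refine Prod.ext ?_ (Prod.ext ?_ ?_) <;> simp <;> ring

lemma cr_jacobi (a b c : V3 p) :
    cr p a (cr p b c) = cr p (cr p a b) c + cr p b (cr p a c) := by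
  simp only [cr, Prod.mk_add_mk, Prod.mk.injEq]
  refine ⟨by ring, by ring, by ring⟩

lemma oP_add_left (a b c : V3 p) : oP p (a + b) c = oP p a c + oP p b c := by
  simp only [oP, Prod.fst_add, Prod.snd_add]
  ring

lemma oP_add_right (a b c : V3 p) : oP p a (b + c) = oP p a b + oP p a c := by
  simp only [oP, Prod.fst_add, Prod.snd_add, map_add]
  ring

lemma oP_sc_self (f : RR p) (a : V3 p) : 2 * oP p (sc p f a) a = f * DD p (dt p a a) := by
  simp only [oP, sc, dt, map_add, Derivation.leibniz, smul_eq_mul]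
  ring

lemma oP_self (a : V3 p) : 2 * oP p a a = DD p (dt p a a) := by
  simp only [oP, dt, map_add, Derivation.leibniz, smul_eq_mul]
  ring

lemma oP_jacobi (a b c : V3 p) :
    oP p a (cr p b c) - oP p (cr p a b) c - oP p b (cr p a c)
      = DD p (dt p a (cr p b c)) := by
  simp only [oP, cr, dt, map_add, map_sub, Derivation.leibniz, smul_eq_mul]
  ring

lemma phi_two (f : RR p) : phi p (2 * f) = 2 * phi p f := by
  rw [two_mul, map_add, two_mul]

noncomputable instance instLieRingAf [hp : OddPrime p] : LieRing (Af p) where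
  add_lie a b c := Prod.ext (cr_add_left p _ _ _) (by
    rw [af_add_snd, af_snd, af_snd, af_snd, af_add_fst, oP_add_left, map_add])
  lie_add a b c := Prod.ext (cr_add_right p _ _ _) (by
    rw [af_add_snd, af_snd, af_snd, af_snd, af_add_fst, oP_add_right, map_add])
  lie_self a := Prod.ext (cr_self p _) (by
    rw [af_snd, af_zero_snd]
    apply two_cancel p
    rw [← phi_two, oP_self, phi_DD])
  leibniz_lie a b c := Prod.ext (cr_jacobi p _ _ _) (by
    rw [af_add_snd, af_snd, af_snd, af_snd, af_fst, af_fst, af_fst]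
    have h := phi_DD p (dt p a.1 (cr p b.1 c.1))
    rw [← oP_jacobi, map_sub, map_sub] at h
    linear_combination h)

/-- the operator `y ↦ [[y, a], u]` -/
def Op {L : Type} [LieRing L] (a u y : L) : L := ⁅⁅y, a⁆, u⁆

/-- the word `[[[a, b], [a, d]], a]` -/
def Sg {L : Type} [LieRing L] (a b d : L) : L := ⁅⁅⁅a, b⁆, ⁅a, d⁆⁆, a⁆

/-- determinant -/
noncomputable def det3 (a b d : V3 p) : RR p := dt p a (cr p b d)

/-- vector part of `Op` -/
noncomputable def OpV (a u y : V3 p) : V3 p := cr p (cr p y a) u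

lemma det3_OpV (a b u y : V3 p) : det3 p a b (OpV p a u y) = -(dt p a u) * det3 p a b y := by
  simp only [det3, OpV, cr, dt]
  ring

lemma cr_OpV (a v y : V3 p) : cr p (OpV p a v y) a = sc p (-(dt p a v)) (cr p y a) := by
  simp only [OpV, cr, dt, sc, Prod.mk.injEq]
  refine ⟨by ring, by ring, by ring⟩

lemma cr_cr (a b d : V3 p) : cr p (cr p a b) (cr p a d) = sc p (det3 p a b d) a := by
  simp only [det3, cr, dt, sc, Prod.mk.injEq]
  refine ⟨by ring, by ring, by ring⟩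

lemma cr_sc_self (f : RR p) (a : V3 p) : cr p (sc p f a) a = 0 := by
  simp only [cr, sc]
  refine Prod.ext ?_ (Prod.ext ?_ ?_) <;> simp <;> ring

lemma cr_sc_left (f : RR p) (a b : V3 p) : cr p (sc p f a) b = sc p f (cr p a b) := by
  simp only [cr, sc, Prod.mk.injEq]
  refine ⟨by ring, by ring, by ring⟩

lemma sc_sc (f g : RR p) (a : V3 p) : sc p f (sc p g a) = sc p (f * g) a := by
  simp only [sc, Prod.mk.injEq]
  refine ⟨by ring, by ring, by ring⟩

lemma OpV_OpV (a u v y : V3 p) : OpV p a u (OpV p a v y) = sc p (-(dt p a v)) (OpV p a u y) := by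
  rw [OpV, cr_OpV, cr_sc_left, ← OpV]

variable [hp : OddPrime p]

lemma Op_fst (a u y : Af p) : (Op a u y).1 = OpV p a.1 u.1 y.1 := rfl

lemma Sg_fst (a b d : Af p) : (Sg a b d).1 = 0 := by
  rw [Sg, af_fst, af_fst, af_fst, af_fst, cr_cr, cr_sc_self]

lemma Sg_snd (a b d : Af p) :
    2 * (Sg a b d).2 = phi p (det3 p a.1 b.1 d.1 * DD p (dt p a.1 a.1)) := by
  rw [Sg, af_snd, af_fst, af_fst, af_fst, cr_cr, ← phi_two, oP_sc_self]

lemma Sg_congr {a b d d' : Af p}
    (h : phi p (det3 p a.1 b.1 d.1 * DD p (dt p a.1 a.1))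
      = phi p (det3 p a.1 b.1 d'.1 * DD p (dt p a.1 a.1))) : Sg a b d = Sg a b d' := by
  refine Prod.ext ?_ ?_
  · rw [Sg_fst, Sg_fst]
  · have : 2 * ((Sg a b d).2 - (Sg a b d').2) = 0 := by
      rw [mul_sub, Sg_snd, Sg_snd, h, sub_self]
    exact sub_eq_zero.1 (two_cancel p this)

lemma bracket_congr {x y : Af p} (h : x.1 = y.1) (t : Af p) : ⁅x, t⁆ = ⁅y, t⁆ := by
  refine Prod.ext ?_ ?_
  · rw [af_fst, af_fst, h]
  · rw [af_snd, af_snd, h]

lemma det3_iter (a b u y : Af p) (k : ℕ) :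
    det3 p a.1 b.1 ((Op a u)^[k] y).1 = (-(dt p a.1 u.1)) ^ k * det3 p a.1 b.1 y.1 := by
  induction k with
  | zero => simp
  | succ k ih =>
    rw [Function.iterate_succ_apply', Op_fst, det3_OpV, ih]
    ring

/-- `C1` -/
lemma af_C1 (a b y u u' : Af p) :
    Sg a b (Op a u' (Op a u y)) = Sg a b (Op a u (Op a u' y)) := by
  apply Sg_congr
  rw [Op_fst, Op_fst, Op_fst, Op_fst, det3_OpV, det3_OpV, det3_OpV, det3_OpV]
  exact congrArg (phi p) (by ring)

/-- `C2` -/
lemma af_C2 (a y u u' u'' t : Af p) :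
    ⁅Op a u'' (Op a u' (Op a u y)), t⁆ = ⁅Op a u'' (Op a u (Op a u' y)), t⁆ := by
  apply bracket_congr
  simp only [Op_fst]
  rw [OpV_OpV, OpV_OpV, OpV_OpV, OpV_OpV, sc_sc, sc_sc, mul_comm]

lemma dt_cr (a b x : V3 p) : dt p a (cr p b x) = det3 p a b x := rfl

/-- `C3` -/
lemma af_C3 (a b x y u : Af p) :
    Sg a b (Op a ⁅b, Op a u x⁆ y) = Sg a b (Op a u (Op a ⁅b, x⁆ y)) := by
  apply Sg_congr
  rw [Op_fst, Op_fst, Op_fst, af_fst, af_fst, Op_fst, det3_OpV, det3_OpV, det3_OpV, dt_cr,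
    dt_cr, det3_OpV]
  exact congrArg (phi p) (by ring)

/-- `C4` -/
lemma af_C4 (a b x y u u'' t : Af p) :
    ⁅Op a u'' (Op a ⁅b, Op a u x⁆ y), t⁆ = ⁅Op a u'' (Op a u (Op a ⁅b, x⁆ y)), t⁆ := by
  apply bracket_congr
  simp only [Op_fst, af_fst]
  rw [OpV_OpV, OpV_OpV, OpV_OpV, dt_cr, dt_cr, det3_OpV, sc_sc]
  congr 1
  ring

lemma even_p : Even (p - 1) :=
  Nat.Odd.sub_odd (hp.prime.odd_of_ne_two hp.ne_two) odd_one

/-- `I2` -/
lemma af_I2 (a b d : Af p) : Sg a b ((Op a ⁅b, d⁆)^[p - 1] d) = 0 := by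
  haveI := Fact.mk hp.prime
  refine Prod.ext (Sg_fst p _ _ _) ?_
  rw [af_zero_snd]
  apply two_cancel p
  rw [Sg_snd, det3_iter, af_fst, dt_cr, (even_p p).neg_pow, ← pow_succ,
    Nat.sub_add_cancel hp.prime.pos]
  have e : det3 p a.1 b.1 d.1 ^ p * DD p (dt p a.1 a.1)
      = DD p (det3 p a.1 b.1 d.1 ^ p * dt p a.1 a.1) := by
    rw [Derivation.leibniz, Derivation.leibniz_pow, nsmul_eq_mul]
    have : ((p : ℕ) : RR p) = 0 := CharP.cast_eq_zero _ p
    rw [this]
    simp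
  rw [e, phi_DD]

/-- `I1` -/
lemma af_I1 (a b d : Af p) :
    Sg a b ((Op a a)^[p - 1] ((Op a ⁅b, d⁆)^[p - 1] d)) = Sg a b d := by
  haveI := Fact.mk hp.prime
  apply Sg_congr
  rw [det3_iter, det3_iter, af_fst, dt_cr, (even_p p).neg_pow, (even_p p).neg_pow, ← pow_succ,
    Nat.sub_add_cancel hp.prime.pos,
    ← phi_cartier p (det3 p a.1 b.1 d.1) (dt p a.1 a.1)]
  exact congrArg (phi p) (by ring)

/-- failure of the test identity -/
lemma af_fail : ∃ a b d : Af p, Sg a b d ≠ 0 := by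
  haveI := Fact.mk hp.prime
  refine ⟨((1 + X 0, 0, 0), 0), ((0, 1, 0), 0), ((0, 0, X 1), 0), fun h => ?_⟩
  have h2 := Sg_snd p (((1 + X 0, 0, 0), 0) : Af p) (((0, 1, 0), 0) : Af p)
    (((0, 0, X 1), 0) : Af p)
  rw [h, af_zero_snd, mul_zero] at h2
  have hx : DD p (X 0) = X 0 := by
    simp [DD, pderiv_X]
  have e : det3 p ((((1 + X 0, 0, 0), 0) : Af p)).1 ((((0, 1, 0), 0) : Af p)).1
      ((((0, 0, X 1), 0) : Af p)).1 * DD p (dt p ((((1 + X 0, 0, 0), 0) : Af p)).1
      ((((1 + X 0, 0, 0), 0) : Af p)).1)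
      = 2 * (X 0 * X 1) + 4 * (X 0 ^ 2 * X 1) + 2 * (X 0 ^ 3 * X 1) := by
    simp only [det3, dt, cr, Derivation.leibniz, map_add, smul_eq_mul, hx, mul_zero, add_zero,
      zero_mul, mul_one, sub_zero, map_zero, Derivation.map_one_eq_zero, zero_add]
    ring
  rw [e] at h2
  have m1 : (X 0 * X 1 : RR p) = monomial (Finsupp.single 0 1 + Finsupp.single 1 1) 1 := by
    rw [X, X, monomial_mul, mul_one]
  have m2 : (X 0 ^ 2 * X 1 : RR p) = monomial (Finsupp.single 0 2 + Finsupp.single 1 1) 1 := by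
    rw [X_pow_eq_monomial, X, monomial_mul, mul_one]
  have m3 : (X 0 ^ 3 * X 1 : RR p) = monomial (Finsupp.single 0 3 + Finsupp.single 1 1) 1 := by
    rw [X_pow_eq_monomial, X, monomial_mul, mul_one]
  have c2 : (2 : RR p) = C 2 := (map_ofNat C 2).symm
  have c4 : (4 : RR p) = C 4 := (map_ofNat C 4).symm
  rw [m1, m2, m3, c2, c4, map_add, map_add, C_mul_monomial, C_mul_monomial, C_mul_monomial,
    phi_monomial, phi_monomial, phi_monomial] at h2
  simp at h2
  exact two_ne p hp.prime hp.ne_two h2.symm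

theorem char_Af (a : Af p) : p • a = 0 := by
  haveI := Fact.mk hp.prime
  refine Prod.ext ?_ ?_
  · refine Prod.ext ?_ (Prod.ext ?_ ?_)
    · change p • a.1.1 = 0
      simp
    · change p • a.1.2.1 = 0
      simp
    · change p • a.1.2.2 = 0
      simp
  · change p • a.2 = 0
    simp

end Run7.h11
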