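import Pool.Agent.Run7.h11.Word

set_option autoImplicit false

namespace Run7.h11

open Nat.Partrec (Code)
open Nat.Partrec.Code (eval evaln)

/-- One token acts on a stack of elements of a Lie ring: `inl n` pushes the value of the
variable `n`, `inr 0` pushes zero, `inr 1` negates, `inr 2` adds, `inr k` with `k ≥ 3`
takes the bracket. Missing entries are read as zero. -/
def stepTok {L : Type} [LieRing L] (v : ℕ → L) (st : List L) (tok : ℕ ⊕ ℕ) : List L :=
  Sum.elim (fun n => v n :: st)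
    (fun k => if k = 0 then (0 : L) :: st
      else if k = 1 then (-(st.headD 0)) :: st.tail
      else if k = 2 then (st.tail.headD 0 + st.headD 0) :: st.tail.tail
      else ⁅st.tail.headD 0, st.headD 0⁆ :: st.tail.tail) tok

/-- the value of a reverse Polish token list under an assignment -/
def evalRPN {L : Type} [LieRing L] (v : ℕ → L) (w : List (ℕ ⊕ ℕ)) : L :=
  (List.foldl (stepTok v) [] w).headD 0

/-- the Lie ring `L` satisfies the identity `e.1 = e.2` -/
def Holds (L : Type) [LieRing L] (e : List (ℕ ⊕ ℕ) × List (ℕ ⊕ ℕ)) : Prop :=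
  ∀ v : ℕ → L, evalRPN v e.1 = evalRPN v e.2

/-- only the variables number `0` and `1` occur in the identity -/
def TwoVar (e : List (ℕ ⊕ ℕ) × List (ℕ ⊕ ℕ)) : Prop :=
  ∀ n : ℕ, (Sum.inl n ∈ e.1 ∨ Sum.inl n ∈ e.2) → n < 2

/-- repetition of a block -/
def rep (b : List (ℕ ⊕ ℕ)) (n : ℕ) : List (ℕ ⊕ ℕ) :=
  Nat.rec [] (fun _ acc => acc ++ b) n

lemma rep_succ (b : List (ℕ ⊕ ℕ)) (n : ℕ) : rep b (n + 1) = rep b n ++ b := rfl

lemma mem_rep {b : List (ℕ ⊕ ℕ)} {n : ℕ} {x : ℕ ⊕ ℕ} (h : x ∈ rep b n) : x ∈ b := by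
  induction n with
  | zero => simp [rep] at h
  | succ n ih =>
    rw [rep_succ, List.mem_append] at h
    exact h.elim ih id

lemma length_rep (b : List (ℕ ⊕ ℕ)) (n : ℕ) : (rep b n).length = n * b.length := by
  induction n with
  | zero => simp [rep]
  | succ n ih => rw [rep_succ, List.length_append, ih]; ring

/-- one squared inner step -/
def blk : List (ℕ ⊕ ℕ) :=
  [Sum.inl 0, Sum.inl 1, Sum.inr 3, Sum.inr 3, Sum.inl 0, Sum.inl 1, Sum.inr 3, Sum.inr 3]

/-- adding zero -/
def pad : List (ℕ ⊕ ℕ) := [Sum.inr 0, Sum.inr 2]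

/-- the end of the word -/
def tl : List (ℕ ⊕ ℕ) :=
  [Sum.inl 1, Sum.inr 3, Sum.inl 0, Sum.inl 1, Sum.inr 3, Sum.inr 3]

/-- code of the word `U k` with `s` zeros added -/
def wd (k s : ℕ) : List (ℕ ⊕ ℕ) := (([Sum.inl 0] ++ rep blk k) ++ tl) ++ rep pad s

/-- code of `p x` -/
def pw (p : ℕ) : List (ℕ ⊕ ℕ) := [Sum.inr 0] ++ rep [Sum.inl 0, Sum.inr 2] p

lemma foldl_rep {L : Type} [LieRing L] (v : ℕ → L) (b : List (ℕ ⊕ ℕ)) (n : ℕ) (st : List L) :
    List.foldl (stepTok v) st (rep b n) = (fun t => List.foldl (stepTok v) t b)^[n] st := by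
  induction n with
  | zero => rfl
  | succ n ih => rw [rep_succ, List.foldl_append, ih, Function.iterate_succ_apply']

lemma foldl_blk {L : Type} [LieRing L] (v : ℕ → L) (a : L) :
    List.foldl (stepTok v) [a] blk = [⁅⁅a, ⁅v 0, v 1⁆⁆, ⁅v 0, v 1⁆⁆] := by
  simp [blk, stepTok]

lemma iter_blk {L : Type} [LieRing L] (v : ℕ → L) (a : L) (n : ℕ) :
    (fun t => List.foldl (stepTok v) t blk)^[n] [a]
      = [(fun w : L => ⁅⁅w, ⁅v 0, v 1⁆⁆, ⁅v 0, v 1⁆⁆)^[n] a] := by
  induction n with
  | zero => rfl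
  | succ n ih => rw [Function.iterate_succ_apply', ih, foldl_blk, Function.iterate_succ_apply']

lemma foldl_tl {L : Type} [LieRing L] (v : ℕ → L) (a : L) :
    List.foldl (stepTok v) [a] tl = [⁅⁅a, v 1⁆, ⁅v 0, v 1⁆⁆] := by
  simp [tl, stepTok]

lemma iter_pad {L : Type} [LieRing L] (v : ℕ → L) (a : L) (n : ℕ) :
    (fun t => List.foldl (stepTok v) t pad)^[n] [a] = [a] := by
  induction n with
  | zero => rfl
  | succ n ih => rw [Function.iterate_succ_apply', ih]; simp [pad, stepTok]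

lemma evalRPN_wd {L : Type} [LieRing L] (v : ℕ → L) (k s : ℕ) :
    evalRPN v (wd k s) = U k (v 0) (v 1) := by
  have h0 : List.foldl (stepTok v) [] [Sum.inl 0] = [v 0] := by simp [stepTok]
  rw [evalRPN, wd, List.foldl_append, List.foldl_append, List.foldl_append, h0,
    foldl_rep v blk, iter_blk, foldl_tl, foldl_rep v pad, iter_pad]
  rfl

lemma iter_px {L : Type} [LieRing L] (v : ℕ → L) (n : ℕ) :
    (fun t => List.foldl (stepTok v) t [Sum.inl 0, Sum.inr 2])^[n] [0] = [n • v 0] := by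
  induction n with
  | zero => simp
  | succ n ih =>
    rw [Function.iterate_succ_apply', ih]
    simp [stepTok, succ_nsmul]

lemma evalRPN_pw {L : Type} [LieRing L] (v : ℕ → L) (p : ℕ) :
    evalRPN v (pw p) = p • v 0 := by
  have h0 : List.foldl (stepTok v) [] [Sum.inr 0] = [0] := by simp [stepTok]
  rw [evalRPN, pw, List.foldl_append, h0, foldl_rep, iter_px]
  rfl

lemma evalRPN_zero {L : Type} [LieRing L] (v : ℕ → L) :
    evalRPN v [Sum.inr 0] = 0 := by
  simp [evalRPN, stepTok]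

/-- the axioms -/
def Ax (p : ℕ) : Set (List (ℕ ⊕ ℕ) × List (ℕ ⊕ ℕ)) :=
  {e | e = (pw p, [Sum.inr 0]) ∨ ∃ i s : ℕ,
    (evaln s (Denumerable.ofNat Code i) 0).isSome = true ∧
      e = (wd (p ^ (i + 1) - 1) s, [Sum.inr 0])}

lemma twoVar_wd (k s : ℕ) : TwoVar (wd k s, [Sum.inr 0]) := by
  intro n hn
  simp only [wd, List.mem_append] at hn
  rcases hn with (((h | h) | h) | h) | h
  · simp at h; omega
  · have := mem_rep h; simp [blk] at this; omega
  · simp [tl] at h; omega
  · have := mem_rep h; simp [pad] at this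
  · simp at h

lemma twoVar_pw (p : ℕ) : TwoVar (pw p, [Sum.inr 0]) := by
  intro n hn
  simp only [pw, List.mem_append] at hn
  rcases hn with (h | h) | h
  · simp at h
  · have := mem_rep h; simp at this; omega
  · simp at h

lemma twoVar_Ax (p : ℕ) : ∀ e ∈ Ax p, TwoVar e := by
  rintro e (rfl | ⟨i, s, -, rfl⟩)
  · exact twoVar_pw p
  · exact twoVar_wd _ _

lemma length_wd (k s : ℕ) : (wd k s).length = 7 + 8 * k + 2 * s := by
  simp only [wd, List.length_append, length_rep, blk, tl, pad, List.length_cons, List.length_nil]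
  ring

lemma primrec_rep (b : List (ℕ ⊕ ℕ)) : Primrec (rep b) := by
  unfold rep
  exact Primrec.nat_rec₁ [] ((Primrec.list_append.comp Primrec.snd (Primrec.const b)).to₂)

lemma primrec_pow (p : ℕ) : Primrec (fun i : ℕ => p ^ (i + 1) - 1) := by
  have h : Primrec (fun n : ℕ => p ^ n) := by
    have h1 : Primrec (fun n : ℕ => Nat.rec (motive := fun _ => ℕ) 1 (fun _ acc => acc * p) n) :=
      Primrec.nat_rec₁ 1 ((Primrec.nat_mul.comp Primrec.snd (Primrec.const p)).to₂)
    refine h1.of_eq fun n => ?_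
    induction n with
    | zero => rfl
    | succ n ih => simp only [ih, pow_succ]
  exact Primrec.nat_sub.comp (h.comp Primrec.succ) (Primrec.const 1)

lemma primrec_wd (p : ℕ) :
    Primrec (fun q : ℕ × ℕ => wd (p ^ (q.1 + 1) - 1) q.2) := by
  unfold wd
  exact Primrec.list_append.comp
    (Primrec.list_append.comp
      (Primrec.list_append.comp (Primrec.const _)
        ((primrec_rep blk).comp ((primrec_pow p).comp Primrec.fst)))
      (Primrec.const _))
    ((primrec_rep pad).comp Primrec.snd)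

lemma primrec_base (p : ℕ) :
    PrimrecRel (fun (s : ℕ) (q : ℕ × (List (ℕ ⊕ ℕ) × List (ℕ ⊕ ℕ))) =>
      (evaln s (Denumerable.ofNat Code q.1) 0).isSome = true ∧
        q.2 = (wd (p ^ (q.1 + 1) - 1) s, [Sum.inr 0])) := by
  have h1 : Primrec (fun r : ℕ × (ℕ × (List (ℕ ⊕ ℕ) × List (ℕ ⊕ ℕ))) =>
      (evaln r.1 (Denumerable.ofNat Code r.2.1) 0).isSome) := by
    refine Primrec.option_isSome.comp ?_
    exact Nat.Partrec.Code.primrec_evaln.comp
      (Primrec.pair (Primrec.pair Primrec.fst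
        ((Primrec.ofNat Code).comp (Primrec.fst.comp Primrec.snd))) (Primrec.const 0))
  have h2 : Primrec (fun r : ℕ × (ℕ × (List (ℕ ⊕ ℕ) × List (ℕ ⊕ ℕ))) =>
      (wd (p ^ (r.2.1 + 1) - 1) r.1, ([Sum.inr 0] : List (ℕ ⊕ ℕ)))) :=
    Primrec.pair ((primrec_wd p).comp (Primrec.pair (Primrec.fst.comp Primrec.snd) Primrec.fst))
      (Primrec.const _)
  exact PrimrecPred.and (Primrec.eq.comp h1 (Primrec.const true))
    (Primrec.eq.comp (Primrec.snd.comp Primrec.snd) h2)

lemma computable_Ax (p : ℕ) (hp : 1 < p) : ComputablePred (fun e => e ∈ Ax p) := by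
  have hB := primrec_base p
  have h1 : PrimrecPred (fun q : ℕ × (List (ℕ ⊕ ℕ) × List (ℕ ⊕ ℕ)) =>
      ∃ s ∈ List.range (q.2.1.length + 1), (evaln s (Denumerable.ofNat Code q.1) 0).isSome = true ∧
        q.2 = (wd (p ^ (q.1 + 1) - 1) s, [Sum.inr 0])) := by
    exact hB.exists_mem_list.comp
      (Primrec.list_range.comp (Primrec.succ.comp
        (Primrec.list_length.comp (Primrec.fst.comp Primrec.snd)))) Primrec.id
  have h1' : PrimrecRel (fun (i : ℕ) (e : List (ℕ ⊕ ℕ) × List (ℕ ⊕ ℕ)) =>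
      ∃ s ∈ List.range (e.1.length + 1), (evaln s (Denumerable.ofNat Code i) 0).isSome = true ∧
        e = (wd (p ^ (i + 1) - 1) s, [Sum.inr 0])) := h1
  have h2 : PrimrecPred (fun e : List (ℕ ⊕ ℕ) × List (ℕ ⊕ ℕ) =>
      ∃ i ∈ List.range (e.1.length + 1), ∃ s ∈ List.range (e.1.length + 1),
        (evaln s (Denumerable.ofNat Code i) 0).isSome = true ∧
        e = (wd (p ^ (i + 1) - 1) s, [Sum.inr 0])) := by
    exact h1'.exists_mem_list.comp
      (Primrec.list_range.comp (Primrec.succ.comp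
        (Primrec.list_length.comp Primrec.fst))) Primrec.id
  have h3 : PrimrecPred (fun e : List (ℕ ⊕ ℕ) × List (ℕ ⊕ ℕ) => e = (pw p, [Sum.inr 0])) :=
    Primrec.eq.comp Primrec.id (Primrec.const _)
  refine (h3.or h2).computablePred.of_eq fun e => ?_
  constructor
  · rintro (h | ⟨i, -, s, -, h⟩)
    · exact Or.inl h
    · exact Or.inr ⟨i, s, h⟩
  · rintro (h | ⟨i, s, h, rfl⟩)
    · exact Or.inl h
    · right
      have hl := length_wd (p ^ (i + 1) - 1) s
      have hi : i + 1 < p ^ (i + 1) := Nat.lt_pow_self hp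
      refine ⟨i, ?_, s, ?_, h, rfl⟩
      · rw [List.mem_range]
        simp only [hl]
        omega
      · rw [List.mem_range]
        simp only [hl]
        omega

/-- consequences of the axioms -/
def Th (p : ℕ) (e : List (ℕ ⊕ ℕ) × List (ℕ ⊕ ℕ)) : Prop :=
  ∀ (L : Type) [LieRing L], (∀ a ∈ Ax p, Holds L a) → Holds L e

/-- the test identity of a program -/
def test (p : ℕ) (c : Code) : List (ℕ ⊕ ℕ) × List (ℕ ⊕ ℕ) :=
  (wd (p ^ (Encodable.encode c + 1) - 1) 0, [Sum.inr 0])

lemma Th_test (p : ℕ) [hp : OddPrime p] (c : Code) : Th p (test p c) ↔ (eval c 0).Dom := by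
  constructor
  · intro h
    by_contra hc
    have hmod : ∀ a ∈ Ax p, Holds (Lj p (Encodable.encode c)) a := by
      rintro a (rfl | ⟨i, s, hs, rfl⟩) v
      · rw [evalRPN_zero, evalRPN_pw, char_Lj]
      · rw [evalRPN_zero, evalRPN_wd]
        apply U_vanish
        rintro rfl
        apply hc
        rw [Denumerable.ofNat_encode] at hs
        obtain ⟨x, hx⟩ := Option.isSome_iff_exists.1 hs
        exact Part.dom_iff_mem.2 ⟨x, Nat.Partrec.Code.evaln_sound hx⟩
    have h1 := h _ hmod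
    obtain ⟨a, b, hab⟩ := U_fail p (Encodable.encode c)
    apply hab
    have h2 := h1 (fun n => if n = 0 then a else b)
    rw [test] at h2
    simp only at h2
    rw [evalRPN_zero, evalRPN_wd] at h2
    simpa using h2
  · intro h L _ hL v
    obtain ⟨x, hx⟩ := Part.dom_iff_mem.1 h
    obtain ⟨s, hs⟩ := Nat.Partrec.Code.evaln_complete.1 hx
    have h1 := hL (wd (p ^ (Encodable.encode c + 1) - 1) s, [Sum.inr 0])
      (Or.inr ⟨Encodable.encode c, s, by
        rw [Denumerable.ofNat_encode, Option.isSome_iff_exists]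
        exact ⟨x, hs⟩, rfl⟩) v
    simp only at h1
    rw [evalRPN_zero, evalRPN_wd] at h1
    rw [test]
    simp only
    rw [evalRPN_zero, evalRPN_wd, h1]

lemma computable_test (p : ℕ) : Computable (test p) := by
  apply Primrec.to_comp
  unfold test
  exact Primrec.pair ((primrec_wd p).comp (Primrec.pair Primrec.encode (Primrec.const 0)))
    (Primrec.const _)

lemma not_computable_of_test (p : ℕ) [hp : OddPrime p]
    {T : List (ℕ ⊕ ℕ) × List (ℕ ⊕ ℕ) → Prop} (hT : ∀ c, T (test p c) ↔ Th p (test p c)) :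
    ¬ ComputablePred T := by
  intro h
  apply ComputablePred.halting_problem 0
  obtain ⟨f, hf, hTf⟩ := ComputablePred.computable_iff.1 h
  refine ComputablePred.computable_iff.2 ⟨fun c => f (test p c), hf.comp (computable_test p), ?_⟩
  funext c
  apply propext
  rw [← Th_test p c, ← hT c, hTf]

end Run7.h11
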