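import Pool.Agent.Run7.h11.Af

set_option autoImplicit false

/-!
In a finite Lie ring satisfying the identities `C1`-`C4`, `I1`, `I2` the word `Sg` vanishes.
-/

namespace Run7.h11

/-- the identities -/
structure Sys (L : Type) [LieRing L] (m : ℕ) : Prop where
  C1 : ∀ a b y u u' : L, Sg a b (Op a u' (Op a u y)) = Sg a b (Op a u (Op a u' y))
  C2 : ∀ a y u u' u'' t : L,
    ⁅Op a u'' (Op a u' (Op a u y)), t⁆ = ⁅Op a u'' (Op a u (Op a u' y)), t⁆
  C3 : ∀ a b x y u : L, Sg a b (Op a ⁅b, Op a u x⁆ y) = Sg a b (Op a u (Op a ⁅b, x⁆ y))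
  C4 : ∀ a b x y u u'' t : L,
    ⁅Op a u'' (Op a ⁅b, Op a u x⁆ y), t⁆ = ⁅Op a u'' (Op a u (Op a ⁅b, x⁆ y)), t⁆
  I1 : ∀ a b d : L, Sg a b ((Op a a)^[m] ((Op a ⁅b, d⁆)^[m] d)) = Sg a b d
  I2 : ∀ a b d : L, Sg a b ((Op a ⁅b, d⁆)^[m] d) = 0

lemma mulA {M : Type} [AddCommGroup M] (f g : AddMonoid.End M) (x : M) :
    (f * g) x = f (g x) := rfl

variable {L : Type} [LieRing L]

/-- `Op a u` as an additive map -/
def opHom (a u : L) : L →+ L where
  toFun y := Op a u y
  map_zero' := by simp [Op]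
  map_add' x y := by simp [Op]

lemma opHom_apply (a u y : L) : opHom a u y = Op a u y := rfl

/-- `Sg a b` as an additive map -/
def sgHom (a b : L) : L →+ L where
  toFun y := Sg a b y
  map_zero' := by simp [Sg]
  map_add' x y := by simp [Sg]

lemma sgHom_apply (a b y : L) : sgHom a b y = Sg a b y := rfl

/-- the negligible elements -/
def Neg (a b : L) : AddSubgroup L where
  carrier := {n | Sg a b n = 0 ∧ ∀ u t : L, ⁅Op a u n, t⁆ = 0}
  zero_mem' := by
    constructor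
    · exact (sgHom a b).map_zero
    · intro u t
      rw [← opHom_apply, map_zero, zero_lie]
  add_mem' := by
    rintro x y ⟨hx, hx'⟩ ⟨hy, hy'⟩
    constructor
    · rw [← sgHom_apply, map_add, sgHom_apply, sgHom_apply, hx, hy, add_zero]
    · intro u t
      rw [← opHom_apply, map_add, opHom_apply, opHom_apply, add_lie, hx', hy', add_zero]
  neg_mem' := by
    rintro x ⟨hx, hx'⟩
    constructor
    · rw [← sgHom_apply, map_neg, sgHom_apply, hx, neg_zero]
    · intro u t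
      rw [← opHom_apply, map_neg, opHom_apply, neg_lie, hx', neg_zero]

lemma mem_Neg {a b n : L} : n ∈ Neg a b ↔ Sg a b n = 0 ∧ ∀ u t : L, ⁅Op a u n, t⁆ = 0 := Iff.rfl

lemma Neg_stable (a b u : L) : Neg a b ≤ (Neg a b).comap (opHom a u) := by
  rintro n ⟨-, h⟩
  have h0 : ∀ t : L, ⁅t, Op a u n⁆ = 0 := by
    intro t
    rw [← lie_skew, h, neg_zero]
  rw [AddSubgroup.mem_comap, opHom_apply, mem_Neg]
  constructor
  · rw [Sg, h0, lie_zero, zero_lie]
  · intro v t
    rw [Op, h, zero_lie, zero_lie]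

/-- induced operators on the quotient -/
def oo (a b u : L) : AddMonoid.End (L ⧸ Neg a b) :=
  QuotientAddGroup.map (Neg a b) (Neg a b) (opHom a u) (Neg_stable a b u)

/-- projection -/
def pj (a b : L) : L →+ L ⧸ Neg a b := QuotientAddGroup.mk' (Neg a b)

lemma pj_surj (a b : L) : Function.Surjective (pj a b) := QuotientAddGroup.mk'_surjective _

lemma pj_Op (a b u x : L) : pj a b (Op a u x) = oo a b u (pj a b x) := rfl

lemma pj_eq {a b x y : L} : pj a b x = pj a b y ↔ x - y ∈ Neg a b := by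
  rw [← sub_eq_zero, ← map_sub, pj, QuotientAddGroup.mk'_apply, QuotientAddGroup.eq_zero_iff]

lemma Sg_of_pj {a b x y : L} (h : pj a b x = pj a b y) : Sg a b x = Sg a b y := by
  have h1 := (pj_eq.1 h).1
  rw [← sgHom_apply, map_sub, sgHom_apply, sgHom_apply] at h1
  exact sub_eq_zero.1 h1

lemma sub_mem_Neg {a b x y : L} (h1 : Sg a b x = Sg a b y)
    (h2 : ∀ u t : L, ⁅Op a u x, t⁆ = ⁅Op a u y, t⁆) : x - y ∈ Neg a b := by
  rw [mem_Neg]
  constructor
  · rw [← sgHom_apply, map_sub, sgHom_apply, sgHom_apply, h1, sub_self]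
  · intro u t
    rw [← opHom_apply, map_sub, opHom_apply, opHom_apply, sub_lie, h2, sub_self]

variable {m : ℕ} (S : Sys L m) (a b : L)
include S

lemma oo_comm (u v : L) : oo a b u * oo a b v = oo a b v * oo a b u := by
  ext x
  obtain ⟨y, rfl⟩ := pj_surj a b x
  rw [mulA, mulA, ← pj_Op, ← pj_Op, ← pj_Op, ← pj_Op, pj_eq]
  exact sub_mem_Neg (S.C1 a b y v u) (fun w t => S.C2 a y v u w t)

lemma rho_Op (u x : L) : oo a b ⁅b, Op a u x⁆ = oo a b u * oo a b ⁅b, x⁆ := by
  ext z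
  obtain ⟨y, rfl⟩ := pj_surj a b z
  rw [mulA, ← pj_Op, ← pj_Op, ← pj_Op, pj_eq]
  exact sub_mem_Neg (S.C3 a b x y u) (fun w t => S.C4 a b x y u w t)

lemma rho_iter (u x : L) (k : ℕ) :
    oo a b ⁅b, (Op a u)^[k] x⁆ = oo a b u ^ k * oo a b ⁅b, x⁆ := by
  induction k with
  | zero => simp
  | succ k ih => rw [Function.iterate_succ_apply', rho_Op S, ih, pow_succ', mul_assoc]

omit S in
lemma pj_iter (u x : L) (k : ℕ) :
    pj a b ((Op a u)^[k] x) = (oo a b u ^ k) (pj a b x) := by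
  induction k with
  | zero => simp
  | succ k ih =>
    rw [Function.iterate_succ_apply', pj_Op, ih, pow_succ', mulA]

/-- exponents -/
def gg (m : ℕ) : ℕ → ℕ
  | 0 => 0
  | i + 1 => gg m i + m * (gg m i + 1)

omit S in
lemma gg_succ (i : ℕ) : gg m (i + 1) + 1 = (m + 1) * (gg m i + 1) := by
  rw [gg]; ring

omit S in
lemma gg_eq (i : ℕ) : gg m i + 1 = (m + 1) ^ i := by
  induction i with
  | zero => simp [gg]
  | succ i ih => rw [gg_succ, ih, pow_succ']

/-- `χ` -/
def chi (m : ℕ) (a b d : L) : L := (Op a ⁅b, d⁆)^[m] d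

/-- `F` -/
def FF (m : ℕ) (a b d : L) : L := (Op a a)^[m] (chi m a b d)

lemma rho_chi (d : L) (k : ℕ) :
    oo a b ⁅b, (chi m a b)^[k] d⁆ = oo a b ⁅b, d⁆ ^ (gg m k + 1) := by
  induction k with
  | zero => simp [gg]
  | succ k ih =>
    rw [Function.iterate_succ_apply']
    conv_lhs => rw [chi]
    rw [rho_iter S, ih, ← pow_mul, ← pow_add]
    congr 1
    rw [gg]
    ring

lemma pj_chi (d : L) (k : ℕ) :
    pj a b ((chi m a b)^[k] d) = (oo a b ⁅b, d⁆ ^ gg m k) (pj a b d) := by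
  induction k with
  | zero => simp [gg]
  | succ k ih =>
    rw [Function.iterate_succ_apply']
    conv_lhs => rw [chi]
    rw [pj_iter, rho_chi S, ih, ← mulA, ← pow_mul, ← pow_add]
    congr 2
    rw [gg]
    ring

lemma rho_FF (d : L) (i : ℕ) :
    oo a b ⁅b, (FF m a b)^[i] d⁆ = oo a b a ^ gg m i * oo a b ⁅b, d⁆ ^ (gg m i + 1) := by
  induction i with
  | zero => simp [gg]
  | succ i ih =>
    have hc : Commute (oo a b a) (oo a b ⁅b, d⁆) := oo_comm S a b _ _
    rw [Function.iterate_succ_apply']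
    conv_lhs => rw [FF, chi]
    rw [rho_iter S, rho_iter S, ih, ← pow_succ, (hc.pow_pow _ _).mul_pow, ← pow_mul, ← pow_mul,
      ← mul_assoc, ← pow_add]
    congr 2
    · rw [gg]; ring
    · rw [gg]; ring

lemma pj_FF (d : L) (i : ℕ) :
    pj a b ((FF m a b)^[i] d)
      = (oo a b a ^ gg m i * oo a b ⁅b, d⁆ ^ gg m i) (pj a b d) := by
  induction i with
  | zero => simp [gg]
  | succ i ih =>
    have hc : Commute (oo a b a) (oo a b ⁅b, d⁆) := oo_comm S a b _ _
    rw [Function.iterate_succ_apply']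
    conv_lhs => rw [FF, chi]
    rw [pj_iter, pj_iter, rho_FF S, ih, ← mulA, ← mulA,
      (hc.pow_pow _ _).mul_pow, ← pow_mul, ← pow_mul]
    congr 1
    have h1 : Commute (oo a b ⁅b, d⁆ ^ ((gg m i + 1) * m)) (oo a b a ^ gg m i) :=
      (hc.symm.pow_pow _ _)
    calc oo a b a ^ m * (oo a b a ^ (gg m i * m) * oo a b ⁅b, d⁆ ^ ((gg m i + 1) * m)
          * (oo a b a ^ gg m i * oo a b ⁅b, d⁆ ^ gg m i))
        = oo a b a ^ m * oo a b a ^ (gg m i * m) * (oo a b ⁅b, d⁆ ^ ((gg m i + 1) * m)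
          * oo a b a ^ gg m i) * oo a b ⁅b, d⁆ ^ gg m i := by simp only [mul_assoc]
      _ = oo a b a ^ m * oo a b a ^ (gg m i * m) * (oo a b a ^ gg m i
          * oo a b ⁅b, d⁆ ^ ((gg m i + 1) * m)) * oo a b ⁅b, d⁆ ^ gg m i := by rw [h1.eq]
      _ = oo a b a ^ (m + gg m i * m + gg m i)
          * oo a b ⁅b, d⁆ ^ ((gg m i + 1) * m + gg m i) := by
          simp only [pow_add, mul_assoc]
      _ = _ := by
          congr 2
          · rw [gg]; ring
          · rw [gg]; ring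

lemma Sg_FF (d : L) (i : ℕ) : Sg a b ((FF m a b)^[i] d) = Sg a b d := by
  induction i with
  | zero => rfl
  | succ i ih => rw [Function.iterate_succ_apply', FF, chi, S.I1, ih]

/-- in a finite Lie ring with the identities the word vanishes -/
theorem Sg_zero [Finite L] (d : L) : Sg a b d = 0 := by
  have hfin : Finite (L ⧸ Neg a b) := Finite.of_surjective _ (pj_surj a b)
  obtain ⟨i, j, hne, he⟩ := Finite.exists_ne_map_eq_of_infinite
    (fun i : ℕ => (oo a b ⁅b, d⁆ ^ gg m i) (pj a b d))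
  wlog hij : i < j generalizing i j
  · exact this j i hne.symm he.symm (lt_of_le_of_ne (not_lt.1 hij) hne.symm)
  obtain ⟨k, rfl⟩ : ∃ k, j = i + (k + 1) := ⟨j - i - 1, by omega⟩
  have h1 : pj a b ((FF m a b)^[i] d) = pj a b ((FF m a b)^[i] ((chi m a b)^[k + 1] d)) := by
    rw [pj_FF S, pj_FF S, pj_chi S, rho_chi S, mulA, he,
      ← mulA, ← mulA, ← pow_mul, mul_assoc, ← pow_add]
    congr 3
    apply Nat.succ_injective
    rw [Nat.succ_eq_add_one, Nat.succ_eq_add_one, gg_eq]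
    have e : (gg m (k + 1) + 1) * gg m i + gg m (k + 1) + 1
        = (gg m (k + 1) + 1) * (gg m i + 1) := by ring
    rw [e, gg_eq, gg_eq, ← pow_add, add_comm i]
  rw [← Sg_FF S a b d i, Sg_of_pj h1, Sg_FF S, Function.iterate_succ_apply', chi, S.I2]

end Run7.h11
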