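import Mathlib

set_option autoImplicit false

/-!
The ring `RR p = (ZMod p)[x, y]`, the derivation `x ∂x - y ∂y` and the functional `phi` which
sums the coefficients of the monomials `(x y)^a`.
-/

namespace Run7.h11

open MvPolynomial

/-- polynomials in two variables modulo `p` -/
abbrev RR (p : ℕ) : Type := MvPolynomial (Fin 2) (ZMod p)

/-- the derivation `x ∂x - y ∂y` -/
noncomputable def DD (p : ℕ) : Derivation (ZMod p) (RR p) (RR p) :=
  (X 0 : RR p) • pderiv 0 - (X 1 : RR p) • pderiv 1

/-- sum of the diagonal coefficients -/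
noncomputable def phi (p : ℕ) : RR p →ₗ[ZMod p] ZMod p :=
  (MvPolynomial.basisMonomials (Fin 2) (ZMod p)).constr (ZMod p)
    (fun m => if m 0 = m 1 then (1 : ZMod p) else 0)

lemma phi_monomial (p : ℕ) (m : Fin 2 →₀ ℕ) (c : ZMod p) :
    phi p (monomial m c) = if m 0 = m 1 then c else 0 := by
  have h : (monomial m c : RR p) = c • (MvPolynomial.basisMonomials (Fin 2) (ZMod p)) m := by
    rw [MvPolynomial.coe_basisMonomials, MvPolynomial.smul_monomial, smul_eq_mul, mul_one]
  rw [h, map_smul, phi, Module.Basis.constr_basis]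
  split_ifs <;> simp

lemma DD_monomial (p : ℕ) (m : Fin 2 →₀ ℕ) (c : ZMod p) :
    DD p (monomial m c) = C ((m 0 : ZMod p) - (m 1 : ZMod p)) * monomial m c := by
  rw [DD, Derivation.sub_apply, Derivation.smul_apply, Derivation.smul_apply, smul_eq_mul,
    smul_eq_mul, X_mul_pderiv_monomial, X_mul_pderiv_monomial, nsmul_eq_mul, nsmul_eq_mul,
    map_sub, sub_mul]
  simp

lemma phi_DD (p : ℕ) (f : RR p) : phi p (DD p f) = 0 := by
  induction f using MvPolynomial.induction_on' with
  | monomial m c =>
    rw [DD_monomial, C_mul_monomial, phi_monomial]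
    split_ifs with h
    · rw [h, sub_self, zero_mul]
    · rfl
  | add f g hf hg => rw [map_add, map_add, hf, hg, add_zero]

lemma phi_pow (p : ℕ) [Fact p.Prime] (f : RR p) : phi p (f ^ p) = phi p f := by
  induction f using MvPolynomial.induction_on' with
  | monomial m c =>
    rw [monomial_pow, phi_monomial, phi_monomial, ZMod.pow_card]
    have hp : p ≠ 0 := (Fact.out : p.Prime).ne_zero
    congr 1
    simp [hp]
  | add f g hf hg => rw [add_pow_char, map_add, map_add, hf, hg]

/-- the binomial identity behind the additivity of the inverse Cartier operation -/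
lemma cartier_add {R : Type} [CommRing R] {k : Type} [CommRing k] [Algebra k R]
    (D : Derivation k R R) {p : ℕ} (hp : p.Prime) (a b : R) :
    ∃ c : R, (a + b) ^ (p - 1) * D (a + b)
      = a ^ (p - 1) * D a + b ^ (p - 1) * D b + D c := by
  obtain ⟨m, rfl⟩ : ∃ m, p = m + 1 := ⟨p - 1, by have := hp.pos; omega⟩
  have hc : ∀ i ∈ Finset.range m, ∃ c : ℕ,
      (i + 1) * c = m.choose i ∧ (m - i) * c = m.choose (i + 1) := by
    intro i hi
    rw [Finset.mem_range] at hi
    obtain ⟨c, hc⟩ : (m + 1) ∣ (m + 1).choose (i + 1) :=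
      hp.dvd_choose_self (by omega) (by omega)
    have h1 : (m + 1) * m.choose i = (m + 1).choose (i + 1) * (i + 1) := Nat.add_one_mul_choose_eq m i
    have h2 : m.choose i = (i + 1) * c := by
      apply Nat.eq_of_mul_eq_mul_left (Nat.succ_pos m)
      rw [Nat.succ_eq_add_one, h1, hc]
      ring
    refine ⟨c, h2.symm, ?_⟩
    have h3 := Nat.choose_succ_right_eq m i
    apply Nat.eq_of_mul_eq_mul_left (Nat.succ_pos i)
    rw [Nat.succ_eq_add_one]
    calc (i + 1) * ((m - i) * c) = ((i + 1) * c) * (m - i) := by ring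
      _ = m.choose i * (m - i) := by rw [h2]
      _ = m.choose (i + 1) * (i + 1) := h3.symm
      _ = (i + 1) * m.choose (i + 1) := by ring
  choose! c hc1 hc2 using hc
  refine ⟨∑ i ∈ Finset.range m, (c i : R) * (a ^ (i + 1) * b ^ (m - i)), ?_⟩
  have hD : D (∑ i ∈ Finset.range m, (c i : R) * (a ^ (i + 1) * b ^ (m - i)))
      = ∑ i ∈ Finset.range m, ((m.choose i : R) * a ^ i * b ^ (m - i)) * D a
        + ∑ i ∈ Finset.range m, ((m.choose (i + 1) : R) * a ^ (i + 1) * b ^ (m - (i + 1))) * D b := by
    rw [map_sum, ← Finset.sum_add_distrib]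
    refine Finset.sum_congr rfl fun i hi => ?_
    have e1 : (m.choose i : R) = ((i + 1 : ℕ) : R) * (c i : R) := by
      rw [← hc1 i hi]; push_cast; ring
    have e2 : (m.choose (i + 1) : R) = ((m - i : ℕ) : R) * (c i : R) := by
      rw [← hc2 i hi]; push_cast; ring
    rw [Derivation.leibniz, Derivation.map_natCast, smul_zero, add_zero, Derivation.leibniz,
      Derivation.leibniz_pow, Derivation.leibniz_pow, e1, e2]
    have e3 : i + 1 - 1 = i := by omega
    have e4 : m - i - 1 = m - (i + 1) := by omega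
    rw [e3, e4]
    simp only [smul_eq_mul, nsmul_eq_mul]
    ring
  rw [hD, Nat.add_sub_cancel, map_add, mul_add]
  have h1 : (a + b) ^ m = ∑ i ∈ Finset.range m, ((m.choose i : R) * a ^ i * b ^ (m - i)) + a ^ m := by
    rw [add_pow, Finset.sum_range_succ]
    congr 1
    · refine Finset.sum_congr rfl fun i _ => by ring
    · simp
  have h2 : (a + b) ^ m
      = ∑ i ∈ Finset.range m, ((m.choose (i + 1) : R) * a ^ (i + 1) * b ^ (m - (i + 1))) + b ^ m := by
    rw [add_pow, Finset.sum_range_succ']
    congr 1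
    · refine Finset.sum_congr rfl fun i _ => by ring
    · simp
  have h3 : (a + b) ^ m * D a
      = ∑ i ∈ Finset.range m, ((m.choose i : R) * a ^ i * b ^ (m - i)) * D a + a ^ m * D a := by
    rw [h1, add_mul, Finset.sum_mul]
  have h4 : (a + b) ^ m * D b
      = ∑ i ∈ Finset.range m, ((m.choose (i + 1) : R) * a ^ (i + 1) * b ^ (m - (i + 1))) * D b
        + b ^ m * D b := by
    rw [h2, add_mul, Finset.sum_mul]
  rw [h3, h4]
  ring

/-- invariance of `phi (h D α)` under the inverse Cartier operation -/
lemma phi_cartier (p : ℕ) [hp : Fact p.Prime] (h f : RR p) :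
    phi p (h ^ p * (f ^ (p - 1) * DD p f)) = phi p (h * DD p f) := by
  have hp0 : p ≠ 0 := hp.out.ne_zero
  induction f using MvPolynomial.induction_on' with
  | monomial m c =>
    have e : (C ((m 0 : ZMod p) - (m 1 : ZMod p)) : RR p) ^ p
        = C ((m 0 : ZMod p) - (m 1 : ZMod p)) := by
      rw [← C_pow, ZMod.pow_card]
    have e2 : h ^ p * ((monomial m c : RR p) ^ (p - 1) * DD p (monomial m c))
        = (h * DD p (monomial m c)) ^ p := by
      rw [DD_monomial, mul_pow, mul_pow, e]
      have : (monomial m c : RR p) ^ p = monomial m c ^ (p - 1) * monomial m c := by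
        rw [← pow_succ, Nat.sub_add_cancel hp.out.pos]
      rw [this]
      ring
    rw [e2, phi_pow]
  | add f g hf hg =>
    obtain ⟨c, hc⟩ := cartier_add (DD p) hp.out f g
    have e : h ^ p * DD p c = DD p (h ^ p * c) := by
      rw [Derivation.leibniz, Derivation.leibniz_pow, nsmul_eq_mul]
      have : ((p : ℕ) : RR p) = 0 := CharP.cast_eq_zero _ p
      rw [this]
      simp
    rw [hc, mul_add, mul_add, map_add, map_add, hf, hg, e, phi_DD, add_zero, map_add, mul_add,
      map_add]

end Run7.h11
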