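import Pool.Agent.Run7.h11.Fin
import Pool.Agent.Run7.h11.Coding

set_option autoImplicit false

/-!
Terms, their reverse Polish codes, and the finite list of identities.
-/

namespace Run7.h11

/-- terms -/
inductive Tm : Type
  | v : ℕ → Tm
  | z : Tm
  | ad : Tm → Tm → Tm
  | br : Tm → Tm → Tm

/-- the code of a term -/
def Tm.comp : Tm → List (ℕ ⊕ ℕ)
  | Tm.v n => [Sum.inl n]
  | Tm.z => [Sum.inr 0]
  | Tm.ad s t => (s.comp ++ t.comp) ++ [Sum.inr 2]
  | Tm.br s t => (s.comp ++ t.comp) ++ [Sum.inr 3]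

/-- the value of a term -/
def Tm.val {L : Type} [LieRing L] (e : ℕ → L) : Tm → L
  | Tm.v n => e n
  | Tm.z => 0
  | Tm.ad s t => s.val e + t.val e
  | Tm.br s t => ⁅s.val e, t.val e⁆

lemma foldl_comp {L : Type} [LieRing L] (e : ℕ → L) (t : Tm) (st : List L) :
    List.foldl (stepTok e) st t.comp = t.val e :: st := by
  induction t generalizing st with
  | v n => simp [Tm.comp, Tm.val, stepTok]
  | z => simp [Tm.comp, Tm.val, stepTok]
  | ad s t ihs iht =>
    rw [Tm.comp, List.foldl_append, List.foldl_append, ihs, iht]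
    simp [Tm.val, stepTok]
  | br s t ihs iht =>
    rw [Tm.comp, List.foldl_append, List.foldl_append, ihs, iht]
    simp [Tm.val, stepTok]

lemma evalRPN_comp {L : Type} [LieRing L] (e : ℕ → L) (t : Tm) :
    evalRPN e t.comp = t.val e := by
  rw [evalRPN, foldl_comp, List.headD_cons]

/-- the identity given by two terms -/
def eqn (s t : Tm) : List (ℕ ⊕ ℕ) × List (ℕ ⊕ ℕ) := (s.comp, t.comp)

lemma holds_eqn {L : Type} [LieRing L] (s t : Tm) :
    Holds L (eqn s t) ↔ ∀ e : ℕ → L, s.val e = t.val e := by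
  simp only [Holds, eqn, evalRPN_comp]

/-- the term for `Op` -/
def tOp (a u y : Tm) : Tm := Tm.br (Tm.br y a) u

/-- the term for `Sg` -/
def tSg (a b d : Tm) : Tm := Tm.br (Tm.br (Tm.br a b) (Tm.br a d)) a

lemma val_tOp {L : Type} [LieRing L] (e : ℕ → L) (a u y : Tm) :
    (tOp a u y).val e = Op (a.val e) (u.val e) (y.val e) := rfl

lemma val_tSg {L : Type} [LieRing L] (e : ℕ → L) (a b d : Tm) :
    (tSg a b d).val e = Sg (a.val e) (b.val e) (d.val e) := rfl

lemma val_iter {L : Type} [LieRing L] (e : ℕ → L) (a u y : Tm) (k : ℕ) :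
    ((tOp a u)^[k] y).val e = (Op (a.val e) (u.val e))^[k] (y.val e) := by
  induction k with
  | zero => rfl
  | succ k ih => rw [Function.iterate_succ_apply', val_tOp, ih, Function.iterate_succ_apply']

/-- the term for `k x` -/
def tMul (x : Tm) (k : ℕ) : Tm := (Tm.ad x)^[k] Tm.z

lemma val_tMul {L : Type} [LieRing L] (e : ℕ → L) (x : Tm) (k : ℕ) :
    (tMul x k).val e = k • x.val e := by
  induction k with
  | zero => simp [tMul, Tm.val]
  | succ k ih =>
    rw [tMul, Function.iterate_succ_apply', ← tMul, Tm.val, ih, succ_nsmul']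

open Tm in
/-- the finite list of identities -/
def EE (m : ℕ) : List (List (ℕ ⊕ ℕ) × List (ℕ ⊕ ℕ)) :=
  [eqn (tMul (v 0) (m + 1)) z,
   eqn (tSg (v 0) (v 1) (tOp (v 0) (v 5) (tOp (v 0) (v 4) (v 2))))
     (tSg (v 0) (v 1) (tOp (v 0) (v 4) (tOp (v 0) (v 5) (v 2)))),
   eqn (br (tOp (v 0) (v 6) (tOp (v 0) (v 5) (tOp (v 0) (v 4) (v 2)))) (v 7))
     (br (tOp (v 0) (v 6) (tOp (v 0) (v 4) (tOp (v 0) (v 5) (v 2)))) (v 7)),
   eqn (tSg (v 0) (v 1) (tOp (v 0) (br (v 1) (tOp (v 0) (v 4) (v 3))) (v 2)))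
     (tSg (v 0) (v 1) (tOp (v 0) (v 4) (tOp (v 0) (br (v 1) (v 3)) (v 2)))),
   eqn (br (tOp (v 0) (v 6) (tOp (v 0) (br (v 1) (tOp (v 0) (v 4) (v 3))) (v 2))) (v 7))
     (br (tOp (v 0) (v 6) (tOp (v 0) (v 4) (tOp (v 0) (br (v 1) (v 3)) (v 2)))) (v 7)),
   eqn (tSg (v 0) (v 1) ((tOp (v 0) (v 0))^[m] ((tOp (v 0) (br (v 1) (v 2)))^[m] (v 2))))
     (tSg (v 0) (v 1) (v 2)),
   eqn (tSg (v 0) (v 1) ((tOp (v 0) (br (v 1) (v 2)))^[m] (v 2))) z]

/-- assignment from a list -/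
def asg {L : Type} [LieRing L] (l : List L) : ℕ → L := fun n => l.getD n 0

lemma sys_of_EE {L : Type} [LieRing L] {m : ℕ} (h : ∀ e ∈ EE m, Holds L e) : Sys L m := by
  simp only [EE, List.forall_mem_cons, holds_eqn] at h
  obtain ⟨-, h1, h2, h3, h4, h5, h6, -⟩ := h
  constructor
  · intro a b y u u'
    exact h1 (asg [a, b, y, 0, u, u'])
  · intro a y u u' u'' t
    exact h2 (asg [a, 0, y, 0, u, u', u'', t])
  · intro a b x y u
    exact h3 (asg [a, b, y, x, u])
  · intro a b x y u u'' t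
    exact h4 (asg [a, b, y, x, u, 0, u'', t])
  · intro a b d
    have := h5 (asg [a, b, d])
    rw [val_tSg, val_tSg, val_iter, val_iter] at this
    exact this
  · intro a b d
    have := h6 (asg [a, b, d])
    rw [val_tSg, val_iter] at this
    exact this

lemma char_of_EE {L : Type} [LieRing L] {m : ℕ} (h : ∀ e ∈ EE m, Holds L e) (x : L) :
    (m + 1) • x = 0 := by
  simp only [EE, List.forall_mem_cons, holds_eqn] at h
  have := h.1 (asg [x])
  rw [val_tMul] at this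
  exact this

lemma EE_of_sys {L : Type} [LieRing L] {m : ℕ} (h0 : ∀ x : L, (m + 1) • x = 0)
    (S : Sys L m) : ∀ e ∈ EE m, Holds L e := by
  simp only [EE, List.forall_mem_cons, holds_eqn]
  refine ⟨?_, ?_, ?_, ?_, ?_, ?_, ?_, by simp⟩
  · intro e
    rw [val_tMul]
    exact h0 _
  · intro e
    exact S.C1 _ _ _ _ _
  · intro e
    exact S.C2 _ _ _ _ _ _
  · intro e
    exact S.C3 _ _ _ _ _
  · intro e
    exact S.C4 _ _ _ _ _ _ _
  · intro e
    rw [val_tSg, val_tSg, val_iter, val_iter]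
    exact S.I1 _ _ _
  · intro e
    rw [val_tSg, val_iter]
    exact S.I2 _ _ _

lemma sys_Af (p : ℕ) [OddPrime p] : Sys (Af p) (p - 1) where
  C1 := af_C1 p
  C2 := af_C2 p
  C3 := af_C3 p
  C4 := af_C4 p
  I1 := af_I1 p
  I2 := af_I2 p

end Run7.h11
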