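import Pool.Agent.Run7.h11.Model

set_option autoImplicit false

namespace Run7.h11

open Polynomial

/-- the word `[[x, [x,y], ..., [x,y]], y], [x,y]]` with `2 k` inner occurrences of `[x,y]` -/
def U {L : Type} [LieRing L] (k : ℕ) (a b : L) : L :=
  ⁅⁅(fun w : L => ⁅⁅w, ⁅a, b⁆⁆, ⁅a, b⁆⁆)^[k] a, b⁆, ⁅a, b⁆⁆

variable (p j : ℕ)

/-- scalar multiple of a triple -/
noncomputable def sm (f : (ZMod p)[X]) (a : (ZMod p)[X] × (ZMod p)[X] × (ZMod p)[X]) :
    (ZMod p)[X] × (ZMod p)[X] × (ZMod p)[X] := (f * a.1, f * a.2.1, f * a.2.2)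

/-- the norm of a triple -/
noncomputable def nm (a : (ZMod p)[X] × (ZMod p)[X] × (ZMod p)[X]) : (ZMod p)[X] :=
  (X * a.1) ^ 2 + (X * a.2.1) ^ 2 + (X * a.2.2) ^ 2

lemma crossS_sm (f : (ZMod p)[X]) (a b : (ZMod p)[X] × (ZMod p)[X] × (ZMod p)[X]) :
    crossS p (sm p f a) b = sm p f (crossS p a b) := by
  simp only [crossS, sm, Prod.mk.injEq]
  refine ⟨by ring, by ring, by ring⟩

lemma step (f : (ZMod p)[X]) (a b : (ZMod p)[X] × (ZMod p)[X] × (ZMod p)[X]) :
    crossS p (crossS p (sm p f a) (crossS p a b)) (crossS p a b)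
      = sm p (f * (-(nm p (crossS p a b)))) a := by
  simp only [crossS, sm, nm, Prod.mk.injEq]
  refine ⟨by ring, by ring, by ring⟩

lemma iter (k : ℕ) (a b : (ZMod p)[X] × (ZMod p)[X] × (ZMod p)[X]) :
    (fun w => crossS p (crossS p w (crossS p a b)) (crossS p a b))^[k] a
      = sm p ((-(nm p (crossS p a b))) ^ k) a := by
  induction k with
  | zero => simp [sm]
  | succ k ih =>
    rw [Function.iterate_succ_apply', ih, step, pow_succ]

lemma sm_omP (f : (ZMod p)[X]) (a : (ZMod p)[X] × (ZMod p)[X] × (ZMod p)[X]) :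
    2 * omP p (sm p f a) a = f * derivative (nm p a) := by
  simp only [omP, sm, nm, derivative_add, derivative_pow]
  push_cast
  simp only [map_ofNat]
  ring

variable [hp : OddPrime p]

lemma iter_fst (k : ℕ) (a b : Lj p j) :
    ((fun w : Lj p j => ⁅⁅w, ⁅a, b⁆⁆, ⁅a, b⁆⁆)^[k] a).1
      = sm p ((-(nm p (crossS p a.1 b.1))) ^ k) a.1 := by
  rw [← iter]
  induction k with
  | zero => rfl
  | succ k ih =>
    rw [Function.iterate_succ_apply', Function.iterate_succ_apply', bracket_fst, bracket_fst,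
      bracket_fst, ih]

lemma U_fst (k : ℕ) (a b : Lj p j) : (U k a b).1 = 0 := by
  rw [U, bracket_fst, bracket_fst, iter_fst, crossS_sm, bracket_fst, crossS_sm, crossS_self]
  simp [sm]

lemma U_snd (k : ℕ) (a b : Lj p j) :
    2 * (U k a b).2 = lam p j ((-(nm p (crossS p a.1 b.1))) ^ k
      * derivative (nm p (crossS p a.1 b.1))) := by
  rw [U, bracket_snd, bracket_fst, iter_fst, crossS_sm, bracket_fst, ← lam_two, sm_omP]

/-- vanishing for smaller exponents: lift to the integers -/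
lemma lam_lt {i : ℕ} (hij : i < j) (N : (ZMod p)[X]) :
    lam p j (N ^ (p ^ (i + 1) - 1) * derivative N) = 0 := by
  have hp0 : 0 < p := hp.prime.pos
  obtain ⟨F, rfl⟩ := Polynomial.map_surjective (Int.castRingHom (ZMod p))
    (ZMod.ringHom_surjective (Int.castRingHom (ZMod p))) N
  rw [derivative_map, ← Polynomial.map_pow, ← Polynomial.map_mul, lam, coeff_map]
  have hD : derivative (F ^ (p ^ (i + 1)))
      = C ((p : ℤ) ^ (i + 1)) * (F ^ (p ^ (i + 1) - 1) * derivative F) := by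
    rw [derivative_pow]
    push_cast
    ring
  have h := congrArg (fun G : ℤ[X] => G.coeff (4 * p ^ (j + 1) - 1)) hD
  simp only [coeff_derivative, coeff_C_mul] at h
  have h1 : 4 * p ^ (j + 1) - 1 + 1 = 4 * p ^ (j + 1) := by
    have : 0 < p ^ (j + 1) := Nat.pow_pos hp0
    omega
  have h2 : ((4 * p ^ (j + 1) - 1 : ℕ) : ℤ) + 1 = 4 * (p : ℤ) ^ (j + 1) := by
    have : (((4 * p ^ (j + 1) - 1 + 1 : ℕ)) : ℤ) = 4 * (p : ℤ) ^ (j + 1) := by
      rw [h1]; push_cast; ring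
    push_cast at this
    exact this
  rw [h1, h2] at h
  have h3 : (F ^ (p ^ (i + 1) - 1) * derivative F).coeff (4 * p ^ (j + 1) - 1)
      = p * ((F ^ p ^ (i + 1)).coeff (4 * p ^ (j + 1)) * (4 * (p : ℤ) ^ (j - i - 1))) := by
    have hne : ((p : ℤ) ^ (i + 1)) ≠ 0 := pow_ne_zero _ (by exact_mod_cast hp0.ne')
    apply mul_left_cancel₀ hne
    rw [← h]
    have : (p : ℤ) ^ (j + 1) = (p : ℤ) ^ (i + 1) * (p * (p : ℤ) ^ (j - i - 1)) := by
      rw [← pow_succ', ← pow_add]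
      congr 1
      omega
    rw [this]
    ring
  rw [h3]
  simp

lemma X4_dvd_nm (a b : (ZMod p)[X] × (ZMod p)[X] × (ZMod p)[X]) :
    ∃ G : (ZMod p)[X], nm p (crossS p a b) = X ^ 4 * G := by
  refine ⟨(a.2.1 * b.2.2 - a.2.2 * b.2.1) ^ 2 + (a.2.2 * b.1 - a.1 * b.2.2) ^ 2
    + (a.1 * b.2.1 - a.2.1 * b.1) ^ 2, ?_⟩
  simp only [nm, crossS]
  ring

/-- vanishing for larger exponents: low degree terms are missing -/
lemma lam_gt {i : ℕ} (hij : j < i) (G : (ZMod p)[X]) :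
    lam p j ((X ^ 4 * G) ^ (p ^ (i + 1) - 1) * derivative (X ^ 4 * G)) = 0 := by
  have hp1 : 1 < p := hp.prime.one_lt
  have hlt : p ^ (j + 1) < p ^ (i + 1) := Nat.pow_lt_pow_right hp1 (by omega)
  have h : (X ^ 4 * G) ^ (p ^ (i + 1) - 1) * derivative (X ^ 4 * G)
      = X ^ (4 * (p ^ (i + 1) - 1) + 3)
        * (G ^ (p ^ (i + 1) - 1) * (4 * G + X * derivative G)) := by
    rw [derivative_mul, derivative_X_pow, mul_pow, ← pow_mul, pow_add]
    push_cast
    simp only [map_ofNat]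
    ring
  rw [lam, h, coeff_X_pow_mul']
  rw [if_neg]
  omega

/-- non-vanishing -/
lemma lam_eq : lam p j ((X ^ 4 : (ZMod p)[X]) ^ (p ^ (j + 1) - 1) * derivative (X ^ 4)) ≠ 0 := by
  have hpos : 0 < p ^ (j + 1) := Nat.pow_pos hp.prime.pos
  have h : (X ^ 4 : (ZMod p)[X]) ^ (p ^ (j + 1) - 1) * derivative (X ^ 4)
      = C 4 * X ^ (4 * p ^ (j + 1) - 1) := by
    have e : 4 * p ^ (j + 1) - 1 = 4 * (p ^ (j + 1) - 1) + 3 := by omega
    rw [derivative_X_pow, ← pow_mul, e, pow_add]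
    push_cast
    simp only [map_ofNat]
    ring
  rw [lam, h, coeff_C_mul, coeff_X_pow, if_pos rfl, mul_one]
  intro h4
  have : (2 : ZMod p) * 2 = 0 := by
    rw [← h4]; norm_num
  exact two_ne p hp.prime hp.ne_two (two_cancel p this)

lemma even_exp (i : ℕ) : Even (p ^ (i + 1) - 1) := by
  have hodd : Odd p := hp.prime.odd_of_ne_two hp.ne_two
  exact Nat.Odd.sub_odd hodd.pow odd_one

/-- the identity number `i` holds in the model number `j` when `i ≠ j` -/
theorem U_vanish {i : ℕ} (hij : i ≠ j) (a b : Lj p j) : U (p ^ (i + 1) - 1) a b = 0 := by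
  refine Prod.ext (U_fst p j _ a b) ?_
  rw [zero_snd']
  apply two_cancel p
  rw [U_snd, (even_exp p i).neg_pow]
  rcases lt_or_gt_of_ne hij with h | h
  · exact lam_lt p j h _
  · obtain ⟨G, hG⟩ := X4_dvd_nm p a.1 b.1
    rw [hG]
    exact lam_gt p j h G

/-- the identity number `j` fails in the model number `j` -/
theorem U_fail : ∃ a b : Lj p j, U (p ^ (j + 1) - 1) a b ≠ 0 := by
  refine ⟨((1, 0, 0), 0), ((0, 1, 0), 0), fun h => ?_⟩
  have h2 := U_snd p j (p ^ (j + 1) - 1) (((1, 0, 0), 0) : Lj p j) (((0, 1, 0), 0) : Lj p j)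
  rw [h, zero_snd', mul_zero, (even_exp p j).neg_pow] at h2
  have h3 : nm p (crossS p ((((1, 0, 0), 0) : Lj p j)).1 ((((0, 1, 0), 0) : Lj p j)).1)
      = X ^ 4 := by
    simp only [nm, crossS]
    ring
  rw [h3] at h2
  exact lam_eq p j h2.symm

theorem char_Lj (a : Lj p j) : p • a = 0 := by
  haveI := Fact.mk hp.prime
  refine Prod.ext ?_ ?_
  · refine Prod.ext ?_ (Prod.ext ?_ ?_)
    · change p • a.1.1 = 0
      simp
    · change p • a.1.2.1 = 0
      simp
    · change p • a.1.2.2 = 0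
      simp
  · change p • a.2 = 0
    simp

end Run7.h11
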